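import Pool.Agent.H90.UL.Targets

/-!
# Counting a condition modulo `A` and a condition modulo `B`
-/

set_option autoImplicit false

namespace Pool.Agent.H14.UL

open Pool.Agent.H90.UL Finset

theorem per_mod {A : ℕ} {f : ℕ → Prop} (hf : ∀ x, f (x + A) ↔ f x) (x : ℕ) :
    f (x % A) ↔ f x := by
  have key : ∀ k y : ℕ, f (y + k * A) ↔ f y := by
    intro k
    induction k with
    | zero => intro y; simp
    | succ k ih =>
      intro y
      rw [show y + (k + 1) * A = (y + k * A) + A by ring, hf, ih]
  have h := key (x / A) (x % A)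
  rw [show x % A + x / A * A = x by rw [mul_comm]; exact Nat.mod_add_div x A] at h
  exact h.symm

theorem pf_cnt : T_CNT := by
  intro A B f g _ _ hA hB hAB hf hg
  rw [← Finset.card_product]
  refine Finset.card_bij (fun x _ => (x % A, x % B)) ?_ ?_ ?_
  · intro x hx
    rw [mem_filter, mem_range] at hx
    rw [mem_product, mem_filter, mem_filter, mem_range, mem_range]
    exact ⟨⟨Nat.mod_lt _ hA, (per_mod hf x).2 hx.2.1⟩, Nat.mod_lt _ hB, (per_mod hg x).2 hx.2.2⟩
  · intro x hx y hy hxy
    rw [mem_filter, mem_range] at hx hy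
    have h1 : x % A = y % A := congrArg Prod.fst hxy
    have h2 : x % B = y % B := congrArg Prod.snd hxy
    have h3 : x ≡ y [MOD A * B] := (Nat.modEq_and_modEq_iff_modEq_mul hAB).1 ⟨h1, h2⟩
    exact Nat.ModEq.eq_of_lt_of_lt h3 hx.1 hy.1
  · rintro ⟨u, v⟩ huv
    rw [mem_product, mem_filter, mem_filter, mem_range, mem_range] at huv
    obtain ⟨⟨hu, hfu⟩, hv, hgv⟩ := huv
    have hz := (Nat.chineseRemainder hAB u v).2
    have hzlt := Nat.chineseRemainder_lt_mul hAB u v hA.ne' hB.ne'
    set z : ℕ := (Nat.chineseRemainder hAB u v : ℕ) with hzdef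
    have e1 : z % A = u := by
      have := hz.1
      unfold Nat.ModEq at this
      rw [this]; exact Nat.mod_eq_of_lt hu
    have e2 : z % B = v := by
      have := hz.2
      unfold Nat.ModEq at this
      rw [this]; exact Nat.mod_eq_of_lt hv
    refine ⟨z, ?_, ?_⟩
    · rw [mem_filter, mem_range]
      refine ⟨hzlt, ?_, ?_⟩
      · rw [← per_mod hf z, e1]; exact hfu
      · rw [← per_mod hg z, e2]; exact hgv
    · simp only [e1, e2]

end Pool.Agent.H14.UL
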