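import Pool.Agent.H90.UL.Targets

/-!
# The modulus is at most `4 ^ M`
-/

set_option autoImplicit false

namespace Pool.Agent.H14.UL

open Pool.Agent.H90.UL Finset

theorem fact_le : ∀ (s : ℕ) (S : Finset ℕ), S.card = s → (∀ x ∈ S, 0 < x) →
    s.factorial ≤ ∏ x ∈ S, x := by
  intro s
  induction s with
  | zero =>
    intro S hS _
    rw [Finset.card_eq_zero] at hS
    subst hS
    simp
  | succ s ih =>
    intro S hS hpos
    have hne : S.Nonempty := by
      rw [← Finset.card_pos]; omega
    set m := S.max' hne with hm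
    have hmS : m ∈ S := Finset.max'_mem S hne
    have hsub : S ⊆ Finset.Icc 1 m := by
      intro x hx
      rw [Finset.mem_Icc]
      exact ⟨hpos x hx, Finset.le_max' S x hx⟩
    have hcard : s + 1 ≤ m := by
      have := Finset.card_le_card hsub
      rw [Nat.card_Icc] at this
      omega
    have h1 : (S.erase m).card = s := by
      rw [Finset.card_erase_of_mem hmS]; omega
    have h2 := ih (S.erase m) h1 (fun x hx => hpos x (Finset.mem_of_mem_erase hx))
    rw [← Finset.mul_prod_erase S (fun x => x) hmS, Nat.factorial_succ]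
    exact Nat.mul_le_mul hcard h2

theorem pow_self_le (s : ℕ) : s ^ s ≤ 3 ^ s * s.factorial := by
  have h1 := Real.pow_div_factorial_le_exp (s : ℝ) (Nat.cast_nonneg s) s
  have h2 : Real.exp (s : ℝ) ≤ 3 ^ s := by
    have : Real.exp (s : ℝ) = Real.exp 1 ^ s := by
      rw [← Real.exp_nat_mul]; simp
    rw [this]
    exact pow_le_pow_left₀ (Real.exp_pos 1).le Real.exp_one_lt_three.le s
  have h3 : (0 : ℝ) < (s.factorial : ℝ) := by exact_mod_cast Nat.factorial_pos s
  rw [div_le_iff₀ h3] at h1
  have h4 : ((s : ℝ)) ^ s ≤ 3 ^ s * (s.factorial : ℝ) :=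
    h1.trans (mul_le_mul_of_nonneg_right h2 h3.le)
  exact_mod_cast h4

theorem div_three_inj {x y : ℕ} (hx : x.Prime) (hy : y.Prime) (hx5 : 5 ≤ x) (hy5 : 5 ≤ y)
    (h : x / 3 = y / 3) : x = y := by
  have hx2 : x % 2 = 1 := by
    rcases hx.eq_two_or_odd with h | h
    · omega
    · exact h
  have hy2 : y % 2 = 1 := by
    rcases hy.eq_two_or_odd with h | h
    · omega
    · exact h
  have hx3 : x % 3 ≠ 0 := by
    intro h0
    have := (Nat.prime_dvd_prime_iff_eq Nat.prime_three hx).1 (Nat.dvd_of_mod_eq_zero h0)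
    omega
  have hy3 : y % 3 ≠ 0 := by
    intro h0
    have := (Nat.prime_dvd_prime_iff_eq Nat.prime_three hy).1 (Nat.dvd_of_mod_eq_zero h0)
    omega
  omega

theorem pf_pow : T_POW := by
  intro a n q M R h ha
  set B : Finset ℕ := (R ×ˢ range M).image (fun z => z.1 + z.2 * n) with hB
  have hinj : Set.InjOn (fun z : ℕ × ℕ => z.1 + z.2 * n) (R ×ˢ range M : Finset (ℕ × ℕ)) := by
    rintro ⟨x, t⟩ hx ⟨y, u⟩ hy hxy
    rw [Finset.mem_coe, mem_product, mem_range] at hx hy
    simp only at hx hy hxy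
    have hx1 := h.sub x hx.1
    have hy1 := h.sub y hy.1
    have htu : t = u := by
      rcases lt_trichotomy t u with hlt | heq | hgt
      · exfalso
        obtain ⟨d, rfl⟩ : ∃ d, u = t + 1 + d := ⟨u - (t + 1), by omega⟩
        have : (t + 1 + d) * n = t * n + n + d * n := by ring
        have h0 : 0 ≤ d * n := Nat.zero_le _
        omega
      · exact heq
      · exfalso
        obtain ⟨d, rfl⟩ : ∃ d, t = u + 1 + d := ⟨t - (u + 1), by omega⟩
        have : (u + 1 + d) * n = u * n + n + d * n := by ring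
        have h0 : 0 ≤ d * n := Nat.zero_le _
        omega
    subst htu
    have : x = y := by omega
    rw [this]
  have hcard : B.card = M * R.card := by
    rw [hB, Finset.card_image_of_injOn hinj, Finset.card_product, card_range, mul_comm]
  have hone := h.one
  have hmem : ∀ b ∈ B, b.Prime ∧ 5 ≤ b ∧ b ≤ M * q := by
    intro b hb
    rw [hB, mem_image] at hb
    obtain ⟨⟨x, t⟩, hxt, rfl⟩ := hb
    rw [mem_product, mem_range] at hxt
    simp only at hxt ⊢
    have hx := h.sub x hxt.1
    refine ⟨h.chain x hxt.1 t hxt.2, by omega, ?_⟩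
    have h1 : (t + 1) * n ≤ M * n := Nat.mul_le_mul_right n hxt.2
    have h2 : M * (a + n) ≤ M * q := Nat.mul_le_mul_left M h.qge
    have h3 : M * (a + n) = M * a + M * n := by ring
    have h4 : a ≤ M * a := Nat.le_mul_of_pos_left a h.one
    have h5 : (t + 1) * n = t * n + n := by ring
    omega
  set s := B.card with hs
  have hqs : q ≤ s := by rw [hcard]; exact h.qcard
  have hspos : 0 < s := by
    have := h.qge
    omega
  -- upper bound
  have hup : ∏ x ∈ B, x ≤ 4 ^ (M * q) := by
    have h1 : ∏ x ∈ B, x ≤ primorial (M * q) := by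
      unfold primorial
      apply Finset.prod_le_prod_of_subset_of_one_le'
      · intro x hx
        obtain ⟨h1, _, h3⟩ := hmem x hx
        rw [mem_filter, mem_range]
        exact ⟨by omega, h1⟩
      · intro i hi _
        rw [mem_filter] at hi
        exact hi.2.one_le
    exact h1.trans (primorial_le_four_pow _)
  -- lower bound
  have hlow : 3 ^ s * s.factorial ≤ ∏ x ∈ B, x := by
    have h1 : ∏ x ∈ B, (3 * (x / 3)) ≤ ∏ x ∈ B, x :=
      Finset.prod_le_prod' (fun x _ => Nat.mul_div_le x 3)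
    have h2 : ∏ x ∈ B, (3 * (x / 3)) = 3 ^ s * ∏ x ∈ B, (x / 3) := by
      rw [Finset.prod_mul_distrib, Finset.prod_const]
    have hinj3 : Set.InjOn (fun x : ℕ => x / 3) (B : Set ℕ) := by
      intro x hx y hy hxy
      obtain ⟨a1, a2, _⟩ := hmem x hx
      obtain ⟨b1, b2, _⟩ := hmem y hy
      exact div_three_inj a1 b1 a2 b2 hxy
    have h3 : ∏ x ∈ B, (x / 3) = ∏ y ∈ B.image (fun x => x / 3), y :=
      (Finset.prod_image (s := B) (g := fun x : ℕ => x / 3) (f := fun y : ℕ => y)
        (fun x hx y hy hxy => hinj3 hx hy hxy)).symm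
    have h4 : (B.image (fun x => x / 3)).card = s := Finset.card_image_of_injOn hinj3
    have h5 := fact_le s (B.image (fun x => x / 3)) h4 (by
      intro y hy
      rw [mem_image] at hy
      obtain ⟨x, hx, rfl⟩ := hy
      have := (hmem x hx).2.1
      omega)
    calc 3 ^ s * s.factorial ≤ 3 ^ s * ∏ x ∈ B, (x / 3) := by
          rw [h3]; exact Nat.mul_le_mul_left _ h5
      _ = ∏ x ∈ B, (3 * (x / 3)) := h2.symm
      _ ≤ _ := h1
  have hfin : s ^ s ≤ (4 ^ M) ^ s := by
    calc s ^ s ≤ 3 ^ s * s.factorial := pow_self_le s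
      _ ≤ ∏ x ∈ B, x := hlow
      _ ≤ 4 ^ (M * q) := hup
      _ ≤ 4 ^ (M * s) := Nat.pow_le_pow_right (by norm_num) (Nat.mul_le_mul_left M hqs)
      _ = (4 ^ M) ^ s := by rw [pow_mul]
  have hs4 : s ≤ 4 ^ M := by
    by_contra hcon
    push Not at hcon
    exact absurd hfin (not_le.mpr (Nat.pow_lt_pow_left hcon hspos.ne'))
  exact hqs.trans hs4

end Pool.Agent.H14.UL
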